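import Mathlib
import Pool.Agent.Run7.h453.IZ.Coef

set_option autoImplicit false

/-!
# Log-concavity of the inverse `Z`-polynomial of a matroid of rank at most 4 (MP_147f4d_co)

A finite loopless matroid on the finite set `E` is given by its rank function `r`. All matroids of
the recursion for the inverse Kazhdan-Lusztig polynomial of `M` are the restrictions of `M` to the
flats and the contractions of these; so the polynomials `Q F` of the restrictions `M|F` to the flats
`F` of `M` are characterised by this recursion (`IsInverseKL`).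
-/

namespace Pool.Agent.Results.MP_147f4d_co.RankFour

open Finset Polynomial

variable {α : Type} [DecidableEq α]

/-- `r` is the rank function of a matroid. -/
structure IsRankFunction (r : Finset α → ℕ) : Prop where
  empty : r ∅ = 0
  mono : ∀ X Y : Finset α, X ⊆ Y → r X ≤ r Y
  insert_le : ∀ (X : Finset α) (e : α), r (insert e X) ≤ r X + 1
  submodular : ∀ X Y : Finset α, r (X ∪ Y) + r (X ∩ Y) ≤ r X + r Y

/-- The flats of the matroid `(E, r)`. -/
def flats (r : Finset α → ℕ) (E : Finset α) : Finset (Finset α) :=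
  E.powerset.filter (fun F => ∀ e ∈ E, e ∉ F → r F < r (insert e F))

/-- The flats `H` with `F ⊆ H ⊆ G`. -/
def interval (r : Finset α → ℕ) (E F G : Finset α) : Finset (Finset α) :=
  (flats r E).filter (fun H => F ⊆ H ∧ H ⊆ G)

/-- `μ` is the Möbius function of the lattice of flats. -/
structure IsMoebius (r : Finset α → ℕ) (E : Finset α) (μ : Finset α → Finset α → ℤ) : Prop where
  self : ∀ F ∈ flats r E, μ F F = 1
  sum : ∀ F ∈ flats r E, ∀ G ∈ flats r E, F ⊂ G → ∑ H ∈ interval r E F G, μ F H = 0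

/-- The characteristic polynomial of `(M|G)/F`, for flats `F ⊆ G`: the sum of `μ(F, H) t^(r G - r H)`
over the flats `H` with `F ⊆ H ⊆ G`. -/
noncomputable def charPoly (r : Finset α → ℕ) (E : Finset α) (μ : Finset α → Finset α → ℤ)
    (F G : Finset α) : ℤ[X] := ∑ H ∈ interval r E F G, C (μ F H) * X ^ (r G - r H)

/-- `Q F` is, for each flat `F`, the inverse Kazhdan-Lusztig polynomial of `M|F`: it is `1` if
`r F = 0`, of degree less than `r F / 2` otherwise, and `(-t)^(r G) Q_(M|G) (t⁻¹)` is the sum over the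
flats `F` of `M|G` of `(-1)^(r F) Q_(M|F) (t) t^(r G - r F) χ_((M|G)/F) (t⁻¹)`.
(`reflect n p` is `t^n p(t⁻¹)`.) -/
structure IsInverseKL (r : Finset α → ℕ) (E : Finset α) (μ : Finset α → Finset α → ℤ)
    (Q : Finset α → ℤ[X]) : Prop where
  one : ∀ F ∈ flats r E, r F = 0 → Q F = 1
  degree : ∀ F ∈ flats r E, 0 < r F → 2 * (Q F).natDegree < r F
  recursion : ∀ G ∈ flats r E, (-1) ^ r G * reflect (r G) (Q G) =
    ∑ F ∈ (flats r E).filter (fun F => F ⊆ G),
      (-1) ^ r F * Q F * reflect (r G - r F) (charPoly r E μ F G)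

/-- The inverse `Z`-polynomial `(-1)^(rk M)` times the sum of
`(-1)^(r F) Q_(M|F) (t) t^(rk (M/F)) μ_(M/F)` over the flats `F` of `M`. -/
noncomputable def inverseZ (r : Finset α → ℕ) (E : Finset α) (μ : Finset α → Finset α → ℤ)
    (Q : Finset α → ℤ[X]) : ℤ[X] :=
  (-1) ^ r E * ∑ F ∈ flats r E, (-1) ^ r F * Q F * (X ^ (r E - r F) * C (μ F E))

/-- **Matroids of rank at most 4.** Let `M` be a finite loopless matroid of rank at most 4. Then the
coefficients `a 0, ..., a (rk M)` of the inverse `Z`-polynomial of `M` are positive, log-concave, and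
increase (weakly) up to the middle. -/
theorem result (r : Finset α → ℕ) (E : Finset α) (hr : IsRankFunction r)
    (loopless : ∀ e ∈ E, 0 < r {e}) (h4 : r E ≤ 4)
    (μ : Finset α → Finset α → ℤ) (hμ : IsMoebius r E μ)
    (Q : Finset α → ℤ[X]) (hQ : IsInverseKL r E μ Q)
    (a : ℕ → ℤ) (ha : ∀ i, a i = (inverseZ r E μ Q).coeff i) :
    (∀ i, a i * a (i + 2) ≤ a (i + 1) ^ 2) ∧
    (∀ i, i ≤ r E → 0 < a i) ∧
    (∀ i, 2 * (i + 1) ≤ r E → a i ≤ a (i + 1)) ∧
    (∀ i, i ≤ r E → a i = a (r E - i)) ∧ (∀ i, r E < i → a i = 0) := by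
  have hr' : DC813.IsRk r := ⟨hr.empty, hr.mono, hr.insert_le, hr.submodular⟩
  have d := Pool.Agent.Run7.h453.IZ.mk_dat (r := r) (E := E) (μ := μ) (Q := Q) hr' hμ.self hμ.sum
    hQ.one hQ.degree hQ.recursion
  have hY : ∀ i, a i = (-1) ^ r E * ((fun H => ∑ F ∈ Pool.Agent.Run7.h453.IZ.below r E H,
      (-1) ^ r F * Q F * (X ^ (r H - r F) * C (μ F H))) E : ℤ[X]).coeff i := by
    intro i
    rw [ha, inverseZ]
    have e1 : Pool.Agent.Run7.h453.IZ.below r E E = flats r E := by
      unfold Pool.Agent.Run7.h453.IZ.below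
      exact filter_true_of_mem fun H hH => mem_powerset.1 (mem_filter.1 hH).1
    show _ = (-1) ^ r E * (∑ F ∈ Pool.Agent.Run7.h453.IZ.below r E E,
      (-1) ^ r F * Q F * (X ^ (r E - r F) * C (μ F E))).coeff i
    rw [e1]
    rcases neg_one_pow_eq_or ℤ[X] (r E) with h | h
    · rcases neg_one_pow_eq_or ℤ (r E) with h' | h'
      · rw [h, h', one_mul, one_mul]
      · have h5 : ((-1 : ℤ[X]) ^ r E).coeff 0 = (-1 : ℤ) ^ r E := by
          have : ((-1 : ℤ[X]) ^ r E) = C ((-1 : ℤ) ^ r E) := by simp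
          rw [this, coeff_C_zero]
        rw [h, h', coeff_one_zero] at h5
        norm_num at h5
    · rcases neg_one_pow_eq_or ℤ (r E) with h' | h'
      · have h5 : ((-1 : ℤ[X]) ^ r E).coeff 0 = (-1 : ℤ) ^ r E := by
          have : ((-1 : ℤ[X]) ^ r E) = C ((-1 : ℤ) ^ r E) := by simp
          rw [this, coeff_C_zero]
        rw [h, h', coeff_neg, coeff_one_zero] at h5
        norm_num at h5
      · rw [h, h', neg_one_mul, neg_one_mul, coeff_neg]
  obtain ⟨c1, c2, c3⟩ := Pool.Agent.Run7.h453.IZ.dat_main hr' loopless h4 d a hY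
  refine ⟨c1, c2, c3, ?_, ?_⟩
  · intro i hi
    rw [hY, hY, d.coeff_pal Pool.Agent.Run7.h453.IZ.E_fl hi]
  · intro i hi
    rw [hY, d.coeff_high Pool.Agent.Run7.h453.IZ.E_fl hi, mul_zero]

end Pool.Agent.Results.MP_147f4d_co.RankFour
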